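import Mathlib
import Pool.Agent.V11310.Reg
import Pool.Agent.V11310.BaumSweet
import Pool.Agent.V11310.BaumSweet2

namespace Pool.Agent.Results.MP_4e5b66_nt.NotRegular

/-- The Baum–Sweet sequence: `1` if every maximal block of zeros of the binary
expansion of `m` (without leading zeros) has even length, and `0` otherwise.
`IsZeroBlock m i l` says that the digits of `m` at positions `i, …, i+l-1` (`l > 0`) form such
a maximal block. For `m = 0` there is no block, so the value is `1`. -/
noncomputable def baumSweet (m : ℕ) : ℕ :=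
  open Classical in
  if ∀ i l, Pool.Agent.V11310.BaumSweet.IsZeroBlock m i l → Even l then 1 else 0

/-- The increasing enumeration of the zeros of the Baum–Sweet sequence is not `k`-regular
for any `k ≥ 2`. -/
theorem result (h : ℕ → ℕ) (hmono : StrictMono h)
    (hrange : Set.range h = {m | baumSweet m = 0}) (k : ℕ) (hk : 2 ≤ k) :
    ¬ Pool.Agent.V11310.Reg.IsRegular k (fun n => (h n : ℤ)) := by
  apply Pool.Agent.V11310.BaumSweet.main (r := 2) le_rfl hmono _ hk
  rw [hrange]
  ext m
  show baumSweet m = 0 ↔ ¬ Pool.Agent.V11310.BaumSweet.B 2 m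
  unfold baumSweet Pool.Agent.V11310.BaumSweet.B
  split_ifs with hc
  · exact ⟨fun h => absurd h (by simp),
      fun h => absurd (fun i l hil => even_iff_two_dvd.1 (hc i l hil)) h⟩
  · exact ⟨fun _ h => hc (fun i l hil => even_iff_two_dvd.2 (h i l hil)), fun _ => rfl⟩

end Pool.Agent.Results.MP_4e5b66_nt.NotRegular
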